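import Pool.Agent.H60.FU.Exist
import Pool.Agent.H75.FU.Full

/-!
# Every Hamiltonian diffeomorphism of a torus has at least quadratic growth of periodic orbits

Let `n ≥ 1` and let `φ` be a Hamiltonian diffeomorphism of the standard symplectic torus `T^{2n}`,
that is, the time-one map of a time-periodic Hamiltonian of class `C^2`. Let `P(T)` be the number
of primitive periodic orbits of `φ` of period at most `T`. Then `liminf log P(T) / log T ≥ 2`; more
precisely `P(T) ≥ A T^2 / log T` for some `A > 0` and all large `T`. There is no nondegeneracy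
assumption.

All definitions used in the statement are in this file. `existsUnique_isTimeOne` shows that every
Hamiltonian has exactly one time-one map in the sense of the definition `IsTimeOne`.
-/

set_option autoImplicit false

open Filter Topology Function
open scoped Gradient

namespace Pool.Agent.Results.MP_39bf4a_gt.EveryHamiltonian

/-- Points `(x, y)` of `ℝ^{2n}`. -/
abbrev Pt (n : ℕ) := EuclideanSpace ℝ (Fin n) × EuclideanSpace ℝ (Fin n)

/-- The torus `T^{2n} = ℝ^{2n} / ℤ^{2n}`. -/
abbrev Torus (n : ℕ) := (Fin n → UnitAddCircle) × (Fin n → UnitAddCircle)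

/-- The projection `ℝ^{2n} → T^{2n}`. -/
def proj {n : ℕ} (z : Pt n) : Torus n :=
  (fun i => ((z.1 i : ℝ) : UnitAddCircle), fun i => ((z.2 i : ℝ) : UnitAddCircle))

/-- `H` is (the lift to `ℝ × ℝ^{2n}` of) a `C^2` function on `ℝ/ℤ × T^{2n}`. -/
structure IsHamiltonian {n : ℕ} (H : ℝ → Pt n → ℝ) : Prop where
  smooth : ContDiff ℝ 2 fun p : ℝ × Pt n => H p.1 p.2
  time : ∀ t z, H (t + 1) z = H t z
  space : ∀ t z w, proj z = proj w → H t z = H t w

/-- `φ` is the time-one map on `T^{2n}` of the flow of the Hamiltonian `H`, whose equations are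
`x' = ∂H/∂y`, `y' = -∂H/∂x`: for every solution `γ = (x, y)` of these equations on `ℝ`, `φ` maps
the class of `γ 0` to the class of `γ 1`. -/
def IsTimeOne {n : ℕ} (H : ℝ → Pt n → ℝ) (φ : Torus n → Torus n) : Prop :=
  ∀ γ : ℝ → Pt n,
    (∀ t, HasDerivAt γ (∇ (fun y => H t ((γ t).1, y)) (γ t).2,
      -∇ (fun x => H t (x, (γ t).2)) (γ t).1) t) →
    φ (proj (γ 0)) = proj (γ 1)

/-- `P φ T` is the number (possibly infinite) of primitive periodic orbits of `φ` of period at most
`T`: the number of the sets `{φ^k (x)}` for the periodic points `x` with least period at most `T`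
(`minimalPeriod φ x` is the least period of `x`, and `0` if `x` is not periodic). -/
noncomputable def P {n : ℕ} (φ : Torus n → Torus n) (T : ℝ) : ℕ∞ :=
  {O : Set (Torus n) | ∃ x, 0 < minimalPeriod φ x ∧ (minimalPeriod φ x : ℝ) ≤ T ∧
    O = {y | ∃ k : ℕ, y = φ^[k] x}}.encard

theorem IsHamiltonian.toQG {n : ℕ} {H : ℝ → Pt n → ℝ} (h : IsHamiltonian H) :
    Pool.Agent.H60.QG.IsHamiltonian H := ⟨h.smooth, h.time, h.space⟩

/-- **Every Hamiltonian has exactly one time-one map.** -/
theorem existsUnique_isTimeOne {n : ℕ} {H : ℝ → Pt n → ℝ} (hH : IsHamiltonian H) :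
    ∃! φ : Torus n → Torus n, IsTimeOne H φ :=
  Pool.Agent.H60.QG.existsUnique_isTimeOne hH.toQG

/-- **Quadratic growth of periodic orbits.** Let `n ≥ 1`, let `H` be a time-periodic `C^2`
Hamiltonian on the torus `T^{2n}` and let `φ` be its time-one map. Then
`liminf log P(T) / log T ≥ 2`, and `P(T) ≥ A T^2 / log T` for some `A > 0` and all large `T`.
(The logarithm of `P(T)` and the lower limit are taken in the extended reals: `log ∞ = ∞`.) -/
theorem result {n : ℕ} (hn : 1 ≤ n) (H : ℝ → Pt n → ℝ) (hH : IsHamiltonian H)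
    (φ : Torus n → Torus n) (hφ : IsTimeOne H φ) :
    (2 : EReal) ≤ liminf (fun T : ℝ =>
      ENNReal.log (P φ T : ENNReal) / ((Real.log T : ℝ) : EReal)) atTop ∧
    ∃ A : ℝ, 0 < A ∧ ∀ᶠ T : ℝ in atTop,
      ENNReal.ofReal (A * T ^ 2 / Real.log T) ≤ (P φ T : ENNReal) := by
  obtain ⟨N, S, ψ, h⟩ := Pool.Agent.H47.QG.exists_decomp one_pos (fun _ => H) (fun _ => φ)
    (fun _ _ => hH.toQG) (fun _ _ => hφ)
  have h1 := Pool.Agent.H75.FU.full_all (φ := φ) hn h
  exact ⟨h1.2, h1.1⟩

end Pool.Agent.Results.MP_39bf4a_gt.EveryHamiltonian
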