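import Pool.Agent.H70.CV.Rational

/-!
# Quadratic growth of periodic orbits on manifolds finitely covered by a rational symplectic torus

Let `M = ℝ^{2n} / Γ`, where the group `Γ` of bijections of `ℝ^{2n}` contains, as a subgroup of
finite index, the translations by the vectors of a lattice with basis `b` such that the standard
symplectic form has its values `ω(b_i, b_j)` in `c ℤ`, for some `c ≠ 0`. If `Γ` acts freely by
symplectic diffeomorphisms, then `M` is a closed aspherical symplectic manifold, the function `H`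
below is a time-periodic Hamiltonian on `M`, and `φ` is its time-one map.

Then `liminf log P(T) / log T ≥ 2`; more precisely `P(T) ≥ A T^2 / log T` for some `A > 0` and
all large `T`.
-/

set_option autoImplicit false

open Filter Topology Function
open scoped Gradient

namespace Pool.Agent.Results.MP_39bf4a_gt.FlatManifolds

/-- Points `(x, y)` of `ℝ^{2n}`. -/
abbrev Pt (n : ℕ) := EuclideanSpace ℝ (Fin n) × EuclideanSpace ℝ (Fin n)

/-- The standard symplectic form `∑ dx_i ∧ dy_i`. -/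
noncomputable def omega {n : ℕ} (u v : Pt n) : ℝ := ∑ i, (u.1 i * v.2 i - u.2 i * v.1 i)

/-- `ℝ^{2n} / Γ` is finitely covered by a torus `ℝ^{2n} / (ℤ b_1 + ... + ℤ b_{2n})` whose
symplectic class is a multiple of a rational class: `b` is a basis of `ℝ^{2n}`, the numbers
`ω(b_i, b_j)` lie in `c ℤ`, where `c ≠ 0`, the translations by the vectors `b_i` belong to `Γ`, and
the elements of `Γ` are the compositions of translations by integer combinations of the `b_i` with
finitely many maps `σ`. -/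
def HasRationalTorusCover {n : ℕ} (Γ : Subgroup (Equiv.Perm (Pt n))) : Prop :=
  ∃ (b : Fin (2 * n) → Pt n) (c : ℝ) (F : Finset (Equiv.Perm (Pt n))),
    Submodule.span ℝ (Set.range b) = ⊤ ∧ c ≠ 0 ∧ (∀ i j, ∃ k : ℤ, omega (b i) (b j) = c * k) ∧
    (∀ i, Equiv.addRight (b i) ∈ Γ) ∧
    ∀ γ ∈ Γ, ∃ σ ∈ F, ∃ m : Fin (2 * n) → ℤ, ∀ z, γ z = σ (z + ∑ i, (m i : ℝ) • b i)

/-- Two points are equivalent if they lie in the same orbit of `Γ`. -/
def orbitSetoid {n : ℕ} (Γ : Subgroup (Equiv.Perm (Pt n))) : Setoid (Pt n) where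
  r z w := ∃ γ ∈ Γ, γ z = w
  iseqv :=
    { refl := fun _ => ⟨1, Γ.one_mem, rfl⟩
      symm := by
        rintro z w ⟨γ, h, rfl⟩
        exact ⟨γ⁻¹, Γ.inv_mem h, γ.symm_apply_apply z⟩
      trans := by
        rintro z w v ⟨γ, h, rfl⟩ ⟨γ', h', rfl⟩
        exact ⟨γ' * γ, Γ.mul_mem h' h, rfl⟩ }

/-- The quotient `M = ℝ^{2n} / Γ` (the set of orbits of `Γ`). -/
abbrev Mfd {n : ℕ} (Γ : Subgroup (Equiv.Perm (Pt n))) := Quotient (orbitSetoid Γ)

/-- The projection `ℝ^{2n} → M`. -/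
def proj {n : ℕ} (Γ : Subgroup (Equiv.Perm (Pt n))) (z : Pt n) : Mfd Γ :=
  Quotient.mk (orbitSetoid Γ) z

/-- `H` is (the lift to `ℝ × ℝ^{2n}` of) a `C^2` function on `ℝ/ℤ × M`. -/
structure IsHamiltonian {n : ℕ} (Γ : Subgroup (Equiv.Perm (Pt n))) (H : ℝ → Pt n → ℝ) : Prop where
  smooth : ContDiff ℝ 2 fun p : ℝ × Pt n => H p.1 p.2
  time : ∀ t z, H (t + 1) z = H t z
  space : ∀ t z, ∀ γ ∈ Γ, H t (γ z) = H t z

/-- `φ` is the time-one map on `M` of the flow of the Hamiltonian `H`, whose equations are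
`x' = ∂H/∂y`, `y' = -∂H/∂x`: for every solution `γ = (x, y)` of these equations on `ℝ`, `φ` maps
the class of `γ 0` to the class of `γ 1`. -/
def IsTimeOne {n : ℕ} {Γ : Subgroup (Equiv.Perm (Pt n))} (H : ℝ → Pt n → ℝ)
    (φ : Mfd Γ → Mfd Γ) : Prop :=
  ∀ γ : ℝ → Pt n,
    (∀ t, HasDerivAt γ (∇ (fun y => H t ((γ t).1, y)) (γ t).2,
      -∇ (fun x => H t (x, (γ t).2)) (γ t).1) t) →
    φ (proj Γ (γ 0)) = proj Γ (γ 1)

/-- `P φ T` is the number (possibly infinite) of primitive periodic orbits of `φ` of period at most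
`T`: the number of the sets `{φ^k (x)}` for the periodic points `x` with least period at most `T`
(`minimalPeriod φ x` is the least period of `x`, and `0` if `x` is not periodic). -/
noncomputable def P {n : ℕ} {Γ : Subgroup (Equiv.Perm (Pt n))} (φ : Mfd Γ → Mfd Γ) (T : ℝ) : ℕ∞ :=
  {O : Set (Mfd Γ) | ∃ x, 0 < minimalPeriod φ x ∧ (minimalPeriod φ x : ℝ) ≤ T ∧
    O = {y | ∃ k : ℕ, y = φ^[k] x}}.encard

theorem omega_eq {n : ℕ} (u v : Pt n) : omega u v = Pool.Agent.H70.CV.omega u v := by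
  rw [Pool.Agent.H70.CV.omega_sum, omega, Finset.sum_sub_distrib]

theorem orbitSetoid_eq {n : ℕ} (Γ : Subgroup (Equiv.Perm (Pt n))) :
    orbitSetoid Γ = MulAction.orbitRel Γ (Pt n) := by
  ext z w
  rw [MulAction.orbitRel_apply, MulAction.mem_orbit_iff]
  constructor
  · rintro ⟨γ, h, rfl⟩
    exact ⟨⟨γ, h⟩⁻¹, γ.symm_apply_apply z⟩
  · rintro ⟨γ, rfl⟩
    exact ⟨γ.1⁻¹, Γ.inv_mem γ.2, γ.1.symm_apply_apply w⟩

theorem growth_setoid {n : ℕ} {L : AddSubgroup (Pt n)} {Γ : Subgroup (Equiv.Perm (Pt n))}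
    {s : Setoid (Pt n)} (hseq : s = MulAction.orbitRel Γ (Pt n)) (hn : 1 ≤ n) {c : ℝ} (hc : c ≠ 0)
    (hL : ∀ a ∈ L, ∀ b ∈ L, ∃ k : ℤ, Pool.Agent.H70.CV.omega a b = c * k)
    (hspan : Submodule.span ℝ (L : Set (Pt n)) = ⊤)
    (hle : Pool.Agent.H70.CV.trans L ≤ Γ) (hfin : (Pool.Agent.H70.CV.trans L).relIndex Γ ≠ 0)
    {H : ℝ → Pt n → ℝ} (hs : ContDiff ℝ 2 fun p : ℝ × Pt n => H p.1 p.2)
    (ht : ∀ t z, H (t + 1) z = H t z) (hz : ∀ t z, ∀ γ ∈ Γ, H t (γ z) = H t z)
    {φ : Quotient s → Quotient s}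
    (hφ : ∀ γ : ℝ → Pt n, (∀ t, HasDerivAt γ (Pool.Agent.H70.CV.field (H t) (γ t)) t) →
      φ (Quotient.mk _ (γ 0)) = Quotient.mk _ (γ 1)) :
    (2 : EReal) ≤ liminf (fun T : ℝ =>
      ENNReal.log ((Pool.Agent.H70.CV.orbs φ T).encard : ENNReal) /
        ((Real.log T : ℝ) : EReal)) atTop ∧
    ∃ c : ℝ, 0 < c ∧ ∀ᶠ T : ℝ in atTop,
      ENNReal.ofReal (c * T ^ 2 / Real.log T) ≤
        ((Pool.Agent.H70.CV.orbs φ T).encard : ENNReal) := by
  subst hseq
  exact Pool.Agent.H70.CV.growth_rational (L := L) hn hc hL hspan hle hfin hs ht hz hφ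

theorem exists_lattice {n : ℕ} {Γ : Subgroup (Equiv.Perm (Pt n))} (hΓ : HasRationalTorusCover Γ) :
    ∃ (L : AddSubgroup (Pt n)) (c : ℝ), c ≠ 0 ∧
      (∀ a ∈ L, ∀ b ∈ L, ∃ k : ℤ, Pool.Agent.H70.CV.omega a b = c * k) ∧
      Submodule.span ℝ (L : Set (Pt n)) = ⊤ ∧ Pool.Agent.H70.CV.trans L ≤ Γ ∧
      (Pool.Agent.H70.CV.trans L).relIndex Γ ≠ 0 := by
  classical
  obtain ⟨b, c, F, h1, h2, h3, h4, h5⟩ := hΓ
  refine ⟨AddSubgroup.closure (Set.range b), c, h2, ?_, ?_, ?_, ?_⟩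
  · have key : ∀ a ∈ AddSubgroup.closure (Set.range b), ∀ j,
        ∃ k : ℤ, Pool.Agent.H70.CV.om n a (b j) = c * k := by
      intro a ha j
      induction ha using AddSubgroup.closure_induction with
      | mem x hx =>
        obtain ⟨i, rfl⟩ := hx
        obtain ⟨k, hk⟩ := h3 i j
        exact ⟨k, by rw [Pool.Agent.H70.CV.om_apply, ← omega_eq, hk]⟩
      | zero => exact ⟨0, by simp⟩
      | add x y _ _ hx hy =>
        obtain ⟨k, hk⟩ := hx
        obtain ⟨l, hl⟩ := hy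
        exact ⟨k + l, by rw [map_add, LinearMap.add_apply, hk, hl]; push_cast; ring⟩
      | neg x _ hx =>
        obtain ⟨k, hk⟩ := hx
        exact ⟨-k, by rw [map_neg, LinearMap.neg_apply, hk]; push_cast; ring⟩
    intro a ha a' ha'
    rw [← Pool.Agent.H70.CV.om_apply]
    induction ha' using AddSubgroup.closure_induction with
    | mem x hx =>
      obtain ⟨j, rfl⟩ := hx
      exact key a ha j
    | zero => exact ⟨0, by simp⟩
    | add x y _ _ hx hy =>
      obtain ⟨k, hk⟩ := hx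
      obtain ⟨l, hl⟩ := hy
      exact ⟨k + l, by rw [map_add, hk, hl]; push_cast; ring⟩
    | neg x _ hx =>
      obtain ⟨k, hk⟩ := hx
      exact ⟨-k, by rw [map_neg, hk]; push_cast; ring⟩
  · rw [eq_top_iff, ← h1]
    exact Submodule.span_mono AddSubgroup.subset_closure
  · rintro σ ⟨v, hv, hσ⟩
    have h6 : σ = Equiv.addRight v := Equiv.ext fun z => by rw [hσ, Equiv.coe_addRight]
    rw [h6]
    induction hv using AddSubgroup.closure_induction generalizing σ with
    | mem x hx =>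
      obtain ⟨i, rfl⟩ := hx
      exact h4 i
    | zero =>
      have : Equiv.addRight (0 : Pt n) = 1 := Equiv.ext fun z => by simp
      rw [this]
      exact Γ.one_mem
    | add x y _ _ hx hy =>
      have e1 := hx (σ := Equiv.addRight x) (fun z => rfl) rfl
      have e2 := hy (σ := Equiv.addRight y) (fun z => rfl) rfl
      have : Equiv.addRight (x + y) = Equiv.addRight y * Equiv.addRight x :=
        Equiv.ext fun z => by simp [add_assoc]
      rw [this]
      exact Γ.mul_mem e2 e1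
    | neg x _ hx =>
      have e1 := hx (σ := Equiv.addRight x) (fun z => rfl) rfl
      have : Equiv.addRight (-x) = (Equiv.addRight x)⁻¹ := by
        rw [eq_inv_iff_mul_eq_one]
        exact Equiv.ext fun z => by simp
      rw [this]
      exact Γ.inv_mem e1
  · have hF : ∀ γ : Γ, ∃ σ : F, ∃ v ∈ AddSubgroup.closure (Set.range b),
        ∀ z, γ.1 z = σ.1 (z + v) := by
      intro γ
      obtain ⟨σ, hσ, m, hm⟩ := h5 γ.1 γ.2
      refine ⟨⟨σ, hσ⟩, _, ?_, hm⟩
      refine AddSubgroup.sum_mem _ fun i _ => ?_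
      rw [Int.cast_smul_eq_zsmul]
      exact AddSubgroup.zsmul_mem _ (AddSubgroup.subset_closure (Set.mem_range_self i)) _
    choose σ v hv hσ using hF
    have hinj : Injective fun x : Γ ⧸ (Pool.Agent.H70.CV.trans
        (AddSubgroup.closure (Set.range b))).subgroupOf Γ => σ x.out := by
      intro x y hxy
      rw [← Quotient.out_eq' x, ← Quotient.out_eq' y]
      refine QuotientGroup.eq.2 ⟨v y.out - v x.out, AddSubgroup.sub_mem _ (hv _) (hv _),
        fun z => ?_⟩
      change ((x.out : Γ).1⁻¹ * (y.out : Γ).1) z = _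
      simp only at hxy
      rw [Equiv.Perm.mul_apply, Equiv.Perm.inv_eq_iff_eq, hσ, hσ, hxy]
      congr 1
      abel
    have hfin : Finite (Γ ⧸ (Pool.Agent.H70.CV.trans
        (AddSubgroup.closure (Set.range b))).subgroupOf Γ) := Finite.of_injective _ hinj
    exact Nat.card_ne_zero.2 ⟨inferInstance, hfin⟩

/-- **Quadratic growth of periodic orbits.** Let `n ≥ 1` and let `M = ℝ^{2n} / Γ` be finitely
covered by a torus whose symplectic class is a multiple of a rational class. Let `H` be a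
time-periodic `C^2` Hamiltonian on `M` and let `φ` be its time-one map. Then
`liminf log P(T) / log T ≥ 2`, and `P(T) ≥ A T^2 / log T` for some `A > 0` and all large `T`.
(The logarithm of `P(T)` and the lower limit are taken in the extended reals: `log ∞ = ∞`.) -/
theorem result {n : ℕ} (hn : 1 ≤ n) (Γ : Subgroup (Equiv.Perm (Pt n)))
    (hΓ : HasRationalTorusCover Γ) (H : ℝ → Pt n → ℝ) (hH : IsHamiltonian Γ H)
    (φ : Mfd Γ → Mfd Γ) (hφ : IsTimeOne H φ) :
    (2 : EReal) ≤ liminf (fun T : ℝ =>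
      ENNReal.log (P φ T : ENNReal) / ((Real.log T : ℝ) : EReal)) atTop ∧
    ∃ A : ℝ, 0 < A ∧ ∀ᶠ T : ℝ in atTop,
      ENNReal.ofReal (A * T ^ 2 / Real.log T) ≤ (P φ T : ENNReal) := by
  obtain ⟨L, c, h1, h2, h3, h4, h5⟩ := exists_lattice hΓ
  exact growth_setoid (L := L) (orbitSetoid_eq Γ) hn h1 h2 h3 h4 h5 hH.smooth hH.time
    (fun t z γ hγ => hH.space t z γ hγ) hφ

end Pool.Agent.Results.MP_39bf4a_gt.FlatManifolds
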